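import Pool.Agent.U280.OD.Stm
import Pool.Agent.H153R4.Pl

/-!
# Project OD, package F1: Plancherel and integration over `τ`
-/

set_option autoImplicit false

open MeasureTheory FourierTransform Set Filter Topology
open scoped ENNReal

namespace Pool.Agent.U690.OD

open Pool.Agent.U280.OD

variable {d : ℕ}

lemma lam_nonneg (ξ : E d) : 0 ≤ lam ξ := by
  unfold lam; positivity

lemma continuous_lam : Continuous (lam : E d → ℝ) := by
  unfold lam; fun_prop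

lemma continuous_mu2 : Continuous (fun p : ℝ × E d => mu p.1 (lam p.2)) := by
  have := continuous_lam (d := d)
  unfold mu
  fun_prop

lemma mu_nonneg (τ l : ℝ) (hl : 0 ≤ l) : 0 ≤ mu τ l := by
  unfold mu; positivity

/-- a Gaussian is integrable -/
lemma gauss (b : ℝ) (hb : 0 < b) : Integrable (fun ξ : E d => Real.exp (-(b * lam ξ))) := by
  have h := GaussianFourier.integrable_cexp_neg_mul_sq_norm_add (V := E d)
    (b := ((b * (4 * Real.pi ^ 2) : ℝ) : ℂ)) (by rw [Complex.ofReal_re]; positivity) 0 0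
  refine h.norm.congr (Eventually.of_forall fun ξ => ?_)
  simp only [Complex.norm_exp]
  congr 1
  have : (-((b * (4 * Real.pi ^ 2) : ℝ) : ℂ) * (‖ξ‖ : ℂ) ^ 2 + 0 * ((inner ℝ (0 : E d) ξ : ℝ) : ℂ)) =
      ((-(b * lam ξ) : ℝ) : ℂ) := by
    unfold lam; push_cast; ring
  rw [this, Complex.ofReal_re]

/-- the symbol is bounded by a Gaussian -/
lemma symb_bound (ε τ : ℝ) (hε : 0 < ε) (hτ : 0 < τ) : ∃ C : ℝ, 0 ≤ C ∧ ∀ l : ℝ, 0 ≤ l →
    mu τ l * Real.exp (-(ε * l)) ≤ C * Real.exp (-(ε / 2 * l)) := by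
  refine ⟨Real.sqrt τ * (4 / ε + 16 / ε ^ 2), by positivity, fun l hl => ?_⟩
  have hs : Real.sqrt l ^ 2 = l := Real.sq_sqrt hl
  have h0 : l * Real.sqrt l ≤ (l + l ^ 2) / 2 := by
    have h1 : 0 ≤ (Real.sqrt l * (1 - Real.sqrt l)) ^ 2 := sq_nonneg _
    have h2 : l * Real.sqrt l = Real.sqrt l ^ 3 := by
      conv_lhs => rw [← hs]
      rw [hs]; rw [pow_succ, hs]
    have h3 : l ^ 2 = Real.sqrt l ^ 4 := by
      rw [show Real.sqrt l ^ 4 = (Real.sqrt l ^ 2) ^ 2 by ring, hs]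
    rw [h2, h3]
    nlinarith [hs]
  have h1 : l ≤ 4 / ε * Real.exp (ε * l / 4) := by
    have := Real.add_one_le_exp (ε * l / 4)
    have h2 : ε * l / 4 ≤ Real.exp (ε * l / 4) := by linarith
    calc l = 4 / ε * (ε * l / 4) := by field_simp
      _ ≤ 4 / ε * Real.exp (ε * l / 4) := by gcongr
  have h2 : l ≤ 4 / ε * Real.exp (ε * l / 2) := by
    refine h1.trans ?_
    have : ε * l / 4 ≤ ε * l / 2 := by
      have : 0 ≤ ε * l := by positivity
      linarith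
    gcongr
  have h3 : l ^ 2 ≤ 16 / ε ^ 2 * Real.exp (ε * l / 2) := by
    have := mul_le_mul h1 h1 hl (by positivity)
    calc l ^ 2 = l * l := by ring
      _ ≤ _ := this
      _ = 16 / ε ^ 2 * (Real.exp (ε * l / 4) * Real.exp (ε * l / 4)) := by field_simp; norm_num
      _ = 16 / ε ^ 2 * Real.exp (ε * l / 2) := by
          rw [← Real.exp_add]; congr 2; ring
  have h4 : l * Real.sqrt l ≤ (4 / ε + 16 / ε ^ 2) / 2 * Real.exp (ε * l / 2) := by
    linarith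
  have h5 : Real.exp (-(τ * l)) ≤ 1 := Real.exp_le_one_iff.mpr (by
    have : 0 ≤ τ * l := by positivity
    linarith)
  unfold mu
  calc 2 * Real.sqrt τ * (l * Real.sqrt l) * Real.exp (-(τ * l)) * Real.exp (-(ε * l))
      ≤ 2 * Real.sqrt τ * ((4 / ε + 16 / ε ^ 2) / 2 * Real.exp (ε * l / 2)) * 1 *
          Real.exp (-(ε * l)) := by gcongr
    _ = Real.sqrt τ * (4 / ε + 16 / ε ^ 2) * (Real.exp (ε * l / 2) * Real.exp (-(ε * l))) := by
        ring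
    _ = Real.sqrt τ * (4 / ε + 16 / ε ^ 2) * Real.exp (-(ε / 2 * l)) := by
        rw [← Real.exp_add]; congr 2; ring

/-- the Fourier transform of a continuous function of compact support is continuous and bounded -/
lemma fourier_cont (u : E d → ℂ) (hu : Continuous u) (hc : HasCompactSupport u) :
    Continuous (𝓕 u) :=
  VectorFourier.fourierIntegral_continuous (L := innerₗ (E d)) Real.continuous_fourierChar
      continuous_inner (hu.integrable_of_hasCompactSupport hc)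

lemma fourier_bdd (u : E d → ℂ) : ∀ ξ, ‖𝓕 u ξ‖ ≤ ∫ x, ‖u x‖ := fun ξ =>
  VectorFourier.norm_fourierIntegral_le_integral_norm Real.fourierChar volume (innerₗ (E d)) u ξ

/-- the integrand -/
noncomputable def gg (ε τ : ℝ) (u : E d → ℂ) (ξ : E d) : ℂ :=
  ((mu τ (lam ξ) * Real.exp (-(ε * lam ξ)) : ℝ) : ℂ) * 𝓕 u ξ

lemma gg_cont (ε τ : ℝ) (u : E d → ℂ) (hu : Continuous u) (hc : HasCompactSupport u) :
    Continuous (gg ε τ u) := by
  have h1 := continuous_lam (d := d)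
  have h2 : Continuous (fun ξ : E d => mu τ (lam ξ)) :=
    continuous_mu2.comp (f := fun ξ : E d => (τ, ξ)) (by fun_prop)
  have h3 := fourier_cont u hu hc
  unfold gg
  fun_prop

lemma gg_bound (ε τ : ℝ) (hε : 0 < ε) (hτ : 0 < τ) (u : E d → ℂ) :
    ∃ C : ℝ, 0 ≤ C ∧ ∀ ξ, ‖gg ε τ u ξ‖ ≤ C * Real.exp (-(ε / 2 * lam ξ)) := by
  obtain ⟨C, hC, h⟩ := symb_bound ε τ hε hτ
  refine ⟨C * ∫ x, ‖u x‖, by positivity, fun ξ => ?_⟩
  have h0 : 0 ≤ mu τ (lam ξ) * Real.exp (-(ε * lam ξ)) :=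
    mul_nonneg (mu_nonneg _ _ (lam_nonneg ξ)) (Real.exp_pos _).le
  unfold gg
  rw [norm_mul, Complex.norm_real, Real.norm_of_nonneg h0]
  calc mu τ (lam ξ) * Real.exp (-(ε * lam ξ)) * ‖𝓕 u ξ‖
      ≤ C * Real.exp (-(ε / 2 * lam ξ)) * ∫ x, ‖u x‖ :=
        mul_le_mul (h _ (lam_nonneg ξ)) (fourier_bdd u ξ) (norm_nonneg _) (by positivity)
    _ = C * (∫ x, ‖u x‖) * Real.exp (-(ε / 2 * lam ξ)) := by ring

lemma gg_int (ε τ : ℝ) (hε : 0 < ε) (hτ : 0 < τ) (u : E d → ℂ) (hu : Continuous u)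
    (hc : HasCompactSupport u) : Integrable (gg ε τ u) := by
  obtain ⟨C, hC, h⟩ := gg_bound ε τ hε hτ u
  exact ((gauss (d := d) (ε / 2) (by positivity)).const_mul C).mono'
    (gg_cont ε τ u hu hc).aestronglyMeasurable (Eventually.of_forall h)

lemma gg_L2 (ε τ : ℝ) (hε : 0 < ε) (hτ : 0 < τ) (u : E d → ℂ) (hu : Continuous u)
    (hc : HasCompactSupport u) : MemLp (gg ε τ u) 2 := by
  obtain ⟨C, hC, h⟩ := gg_bound ε τ hε hτ u
  rw [memLp_two_iff_integrable_sq_norm (gg_cont ε τ u hu hc).aestronglyMeasurable]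
  refine ((gauss (d := d) ε hε).const_mul (C ^ 2)).mono'
    ((gg_cont ε τ u hu hc).norm.pow 2).aestronglyMeasurable (Eventually.of_forall fun ξ => ?_)
  rw [norm_pow, norm_norm]
  calc ‖gg ε τ u ξ‖ ^ 2 ≤ (C * Real.exp (-(ε / 2 * lam ξ))) ^ 2 := by gcongr; exact h ξ
    _ = C ^ 2 * (Real.exp (-(ε / 2 * lam ξ)) * Real.exp (-(ε / 2 * lam ξ))) := by ring
    _ = C ^ 2 * Real.exp (-(ε * lam ξ)) := by rw [← Real.exp_add]; congr 2; ring

/-- Plancherel for `bop` -/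
lemma bop_plancherel (ε τ : ℝ) (hε : 0 < ε) (hτ : 0 < τ) (u : E d → ℂ) (hu : Continuous u)
    (hc : HasCompactSupport u) : ∫⁻ x, ‖bop ε τ u x‖ₑ ^ 2 = ∫⁻ ξ, ‖gg ε τ u ξ‖ₑ ^ 2 := by
  have h1 : ∀ x, bop ε τ u x = 𝓕 (gg ε τ u) (-x) := fun x => by
    unfold bop
    rw [Real.fourierInv_eq_fourier_neg]
    rfl
  simp_rw [h1]
  rw [lintegral_neg_eq_self (fun x => ‖𝓕 (gg ε τ u) x‖ₑ ^ 2)]
  exact Pool.Agent.H153R4.plancherel _ (gg_int ε τ hε hτ u hu hc) (gg_L2 ε τ hε hτ u hu hc)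

lemma gg_le (ε τ : ℝ) (hε : 0 < ε) (u : E d → ℂ) (ξ : E d) :
    ‖gg ε τ u ξ‖ₑ ^ 2 ≤ ENNReal.ofReal (mu τ (lam ξ) ^ 2) * ‖𝓕 u ξ‖ₑ ^ 2 := by
  have h0 := mu_nonneg τ (lam ξ) (lam_nonneg ξ)
  have h1 : Real.exp (-(ε * lam ξ)) ≤ 1 := Real.exp_le_one_iff.mpr (by
    have := mul_nonneg hε.le (lam_nonneg ξ); linarith)
  unfold gg
  rw [enorm_mul, mul_pow]
  gcongr
  rw [← ofReal_norm_eq_enorm, ← ENNReal.ofReal_pow (norm_nonneg _), Complex.norm_real,
    Real.norm_of_nonneg (mul_nonneg h0 (Real.exp_pos _).le)]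
  apply ENNReal.ofReal_le_ofReal
  have : mu τ (lam ξ) * Real.exp (-(ε * lam ξ)) ≤ mu τ (lam ξ) := by
    calc _ ≤ mu τ (lam ξ) * 1 := by gcongr
      _ = _ := mul_one _
  have h2 : 0 ≤ mu τ (lam ξ) * Real.exp (-(ε * lam ξ)) := mul_nonneg h0 (Real.exp_pos _).le
  gcongr

theorem t_F1 : S_A1 → S_D1 → S_F1 := by
  intro hA hD d u hu hc ε hε
  have hm : Measurable (fun p : E d × ℝ => bop ε p.2 u p.1) := (hD d u hu hc ε hε).measurable
  rw [lintegral_lintegral_swap (μ := (volume : Measure (E d)))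
    (ν := (volume : Measure ℝ).restrict (Ioi 0)) (f := fun x τ => ‖bop ε τ u x‖ₑ ^ 2)
    ((hm.enorm.pow_const 2).aemeasurable)]
  have hF := fourier_cont u hu hc
  calc ∫⁻ τ in Ioi (0 : ℝ), ∫⁻ x, ‖bop ε τ u x‖ₑ ^ 2
      ≤ ∫⁻ τ in Ioi (0 : ℝ), ∫⁻ ξ : E d, ENNReal.ofReal (mu τ (lam ξ) ^ 2) * ‖𝓕 u ξ‖ₑ ^ 2 := by
        refine setLIntegral_mono_ae' measurableSet_Ioi (Eventually.of_forall fun τ hτ => ?_)
        rw [bop_plancherel ε τ hε hτ u hu hc]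
        exact lintegral_mono fun ξ => gg_le ε τ hε u ξ
    _ = ∫⁻ ξ : E d, ∫⁻ τ in Ioi (0 : ℝ), ENNReal.ofReal (mu τ (lam ξ) ^ 2) * ‖𝓕 u ξ‖ₑ ^ 2 := by
        rw [lintegral_lintegral_swap]
        have h1 : Measurable (fun p : ℝ × E d => ENNReal.ofReal (mu p.1 (lam p.2) ^ 2)) :=
          ((continuous_mu2 (d := d)).measurable.pow_const 2).ennreal_ofReal
        have h2 : Measurable (fun p : ℝ × E d => ‖𝓕 u p.2‖ₑ ^ 2) :=
          ((hF.measurable.comp measurable_snd).enorm.pow_const 2)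
        exact (h1.mul h2).aemeasurable
    _ = ∫⁻ ξ : E d, (∫⁻ τ in Ioi (0 : ℝ), ENNReal.ofReal (mu τ (lam ξ) ^ 2)) * ‖𝓕 u ξ‖ₑ ^ 2 := by
        refine lintegral_congr fun ξ => ?_
        rw [lintegral_mul_const]
        exact (((continuous_mu2 (d := d)).comp (f := fun τ : ℝ => (τ, ξ))
          (by fun_prop)).measurable.pow_const 2).ennreal_ofReal
    _ ≤ ∫⁻ ξ : E d, ENNReal.ofReal (lam ξ) * ‖𝓕 u ξ‖ₑ ^ 2 := by
        refine lintegral_mono fun ξ => ?_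
        gcongr
        exact hA.2 (lam ξ) (lam_nonneg ξ)

end Pool.Agent.U690.OD
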